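import Mathlib
import Pool.Agent.Helper19.Marked.FaceDefs
import Pool.Agent.Helper19.Marked.Main

/-!
# Face numbers of marked chain polytopes dominate those of marked order polytopes
-/

open Pool.Agent.Helper19.Marked

/-- For every finite marked poset `(P, A, lam)` (with an arbitrary real marking `lam` of a set
`A` containing all minimal and all maximal elements) and every `i`, the marked order polytope
and the marked chain polytope have finitely many faces of dimension `i`, and the marked chain
polytope has at least as many of them as the marked order polytope. -/
theorem Pool.Agent.Results.MP_8118e9_co.HibiLi.result {P : Type*} [PartialOrder P] [Finite P]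
    (A : Set P) (hmin : ∀ p : P, IsMin p → p ∈ A) (hmax : ∀ p : P, IsMax p → p ∈ A)
    (lam : A → ℝ) (i : ℕ) :
    (faces (orderPolytope A lam) i).Finite ∧ (faces (chainPolytope A lam) i).Finite ∧
      (faces (orderPolytope A lam) i).ncard ≤ (faces (chainPolytope A lam) i).ncard := by
  have h1 := finite_faces_order A lam i
  have h2 := finite_faces_chain A lam i
  refine ⟨h1, h2, ?_⟩
  have h := faces_order_le_chain A hmin hmax lam i
  rw [← h1.cast_ncard_eq, ← h2.cast_ncard_eq] at h
  exact_mod_cast h
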